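import Pool.Agent.H.MP_023911_pr.B

open Filter MeasureTheory ProbabilityTheory Set

namespace Pool.Agent.Results.MP_023911_pr.Crit

/-- Value at the vertex `v` of the game with `t` moves left; `X u` is the sign on the edge from
`u` to its parent, `B u` the boundary value at `u`, the children of `v` are the `c :: v`. -/
noncomputable def V {d : ℕ} (X B : List (Fin d) → ℤ) : ℕ → List (Fin d) → ℤ
  | 0, v => B v
  | t + 1, v =>
    if Even v.length then ⨆ c, X (c :: v) + V X B t (c :: v) else ⨅ c, X (c :: v) + V X B t (c :: v)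

/-- independent signs and boundary values -/
def Model {d : ℕ} {Ω : Type} [MeasurableSpace Ω] (p : ℝ) (P : Measure Ω)
    (X B : List (Fin d) → Ω → ℤ) : Prop :=
  (∀ v, Measurable (X v)) ∧ (∀ v, Measurable (B v)) ∧ iIndepFun (Sum.elim X B) P ∧
    ∀ v, P.real {ω | X v ω = 1} = 1 / 2 ∧ P.real {ω | X v ω = -1} = 1 / 2 ∧
      P.real {ω | B v ω = 0} = p ∧ P.real {ω | B v ω = 2} = 1 - p

theorem result : ∃ d₀ : ℕ, ∀ d ≥ d₀, ∃ pc ∈ Ioo (0 : ℝ) 1, ∃ μ : ProbabilityMeasure ℤ,
    ∀ p ∈ Icc (0 : ℝ) 1, ∀ (Ω : Type) [MeasurableSpace Ω] (P : Measure Ω) [IsProbabilityMeasure P]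
      (X B : List (Fin d) → Ω → ℤ), Model p P X B →
      (p < pc → TendstoInDistribution (fun n ω => V (fun v => X v ω) (fun v => B v ω) (2 * n) [])
        atTop (fun x => x + 2) (fun _ => P) μ) ∧
      (pc < p → TendstoInDistribution (fun n ω => V (fun v => X v ω) (fun v => B v ω) (2 * n) [])
        atTop id (fun _ => P) μ) := by
  have e : ∀ d (x b : List (Fin d) → ℤ) t v, V x b t v = Lib.helper3.MM.V x b t v := fun d x b t => by
    induction t with
    | zero => exact fun _ => rfl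
    | succ t ih => intro v; simp only [V, Lib.helper3.MM.V, ih]
  obtain ⟨d₀, h⟩ := H.MP_023911_pr.all
  refine ⟨d₀, fun d hd => ?_⟩
  obtain ⟨pc, hp, μ, ν, -, -, -, -, -, k⟩ := h d hd
  refine ⟨pc, hp, μ, fun p q Ω _ P _ X B m => ?_⟩
  simp only [e]
  exact ⟨(k p q Ω P X B m).1, (k p q Ω P X B m).2.1⟩

end Pool.Agent.Results.MP_023911_pr.Crit
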